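import Pool.Agent.W555.KS.Defs

/-! KS-DSTEP: adding back one generic form. -/

set_option autoImplicit false

namespace Pool.Agent.W563.KS

open Pool.Agent.W555.KS Finset MvPolynomial

attribute [local instance] MvPolynomial.gradedAlgebra

theorem lf_hom {n : ℕ} {k : Type*} [Field k] (c : Fin n → k) : (lf c).IsHomogeneous 1 := by
  unfold lf
  exact IsHomogeneous.sum _ _ _ fun i _ => isHomogeneous_C_mul_X _ _

theorem mono_hom {n : ℕ} {k : Type*} [Field k] (s : Finset (Fin n)) :
    (∏ v ∈ s, (X v : MvPolynomial (Fin n) k)).IsHomogeneous (∑ _v ∈ s, 1) :=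
  IsHomogeneous.prod _ _ _ fun _ _ => isHomogeneous_X _ _

theorem Ij_hom (n d j : ℕ) (L : Finset (Finset (Fin n))) :
    (Ij n d j L).IsHomogeneous (homogeneousSubmodule (Fin n) (Kf (d + 1) n)) := by
  unfold Ij srI
  refine Ideal.IsHomogeneous.sup (Ideal.homogeneous_span _ _ ?_) (Ideal.homogeneous_span _ _ ?_)
  · rintro p ⟨s, _, rfl⟩
    exact ⟨_, mono_hom s⟩
  · rintro p ⟨i, _, rfl⟩
    exact ⟨1, lf_hom _⟩

theorem Ij_succ (n d j : ℕ) (hj : j < d) (L : Finset (Finset (Fin n))) :
    Ij n d (j + 1) L =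
      Ij n d j L ⊔ Ideal.span {lf (gen (d + 1) n (⟨j, by omega⟩ : Fin (d + 1)))} := by
  unfold Ij
  rw [sup_assoc, ← Ideal.span_union]
  congr 2
  ext p
  simp only [Set.mem_ofPred_eq, Set.mem_union, Set.mem_singleton_iff]
  constructor
  · rintro ⟨i, hi, rfl⟩
    rcases Nat.lt_succ_iff_lt_or_eq.1 hi with h | h
    · exact Or.inl ⟨i, h, rfl⟩
    · right
      congr 2
      exact Fin.ext h
  · rintro (⟨i, hi, rfl⟩ | rfl)
    · exact ⟨i, by omega, rfl⟩
    · exact ⟨⟨j, by omega⟩, by simp, rfl⟩

theorem dim_step {n : ℕ} {k : Type*} [Field k] (I : Ideal (MvPolynomial (Fin n) k))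
    (hI : I.IsHomogeneous (homogeneousSubmodule (Fin n) k)) (l : MvPolynomial (Fin n) k)
    (hl : l.IsHomogeneous 1) (r : ℕ) :
    dimQ I (r + 1) ≤ dimQ I r + dimQ (I ⊔ Ideal.span {l}) (r + 1) := by
  unfold dimQ
  set J := I ⊔ Ideal.span {l} with hJ
  have hfd : ∀ m, FiniteDimensional k (homogeneousSubmodule (Fin n) k m) := fun m =>
    Module.Finite.iff_fg.2 (homogeneousSubmodule_fg (Fin n) k m)
  have hfdI : ∀ (K : Ideal (MvPolynomial (Fin n) k)) m, FiniteDimensional k
      ((homogeneousSubmodule (Fin n) k m).map (Ideal.Quotient.mkₐ k K).toLinearMap) := by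
    intro K m
    have := hfd m
    infer_instance
  set A := (homogeneousSubmodule (Fin n) k (r + 1)).map (Ideal.Quotient.mkₐ k I).toLinearMap
    with hA
  set B := (homogeneousSubmodule (Fin n) k r).map (Ideal.Quotient.mkₐ k I).toLinearMap with hB
  have := hfdI I (r + 1)
  have := hfdI I r
  have := hfdI J (r + 1)
  let π : (MvPolynomial (Fin n) k ⧸ I) →ₗ[k] (MvPolynomial (Fin n) k ⧸ J) :=
    (Ideal.Quotient.factorₐ k (le_sup_left : I ≤ J)).toLinearMap
  have hπ : ∀ p, π (Ideal.Quotient.mkₐ k I p) = Ideal.Quotient.mkₐ k J p := fun p => rfl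
  have h1 := LinearMap.finrank_range_add_finrank_ker (π.domRestrict A)
  have h2 : LinearMap.range (π.domRestrict A) =
      (homogeneousSubmodule (Fin n) k (r + 1)).map (Ideal.Quotient.mkₐ k J).toLinearMap := by
    ext x
    constructor
    · rintro ⟨⟨y, hy⟩, rfl⟩
      obtain ⟨p, hp, rfl⟩ := hy
      exact ⟨p, hp, rfl⟩
    · rintro ⟨p, hp, rfl⟩
      exact ⟨⟨_, ⟨p, hp, rfl⟩⟩, rfl⟩
  have h3 : Module.finrank k (LinearMap.ker (π.domRestrict A)) ≤ Module.finrank k B := by
    have e1 : ((LinearMap.ker (π.domRestrict A)).map A.subtype) ≤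
        B.map (LinearMap.mulLeft k (Ideal.Quotient.mkₐ k I l)) := by
      rintro x ⟨⟨y, hy⟩, hyk, rfl⟩
      obtain ⟨p, hp, rfl⟩ := hy
      rw [SetLike.mem_coe, LinearMap.mem_ker] at hyk
      have h4 : Ideal.Quotient.mk J p = 0 := hyk
      rw [Ideal.Quotient.eq_zero_iff_mem, hJ, Submodule.mem_sup] at h4
      obtain ⟨i, hi, q, hq, hpq⟩ := h4
      obtain ⟨f, rfl⟩ := Ideal.mem_span_singleton'.1 hq
      have h5 : homogeneousComponent (r + 1) p = p := homogeneousComponent_eq_self hp
      have h6 : homogeneousComponent (r + 1) i ∈ I := homogeneousComponent_mem_of_mem hI hi _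
      have h7 : homogeneousComponent (r + 1) (f * l) = homogeneousComponent r f * l := by
        have h := DirectSum.coe_decompose_mul_add_of_right_mem
          (homogeneousSubmodule (Fin n) k) (i := r) (j := 1) (a := f) (b := l) hl
        rw [← decomposition.decompose'_apply, ← decomposition.decompose'_apply]
        exact h
      refine ⟨Ideal.Quotient.mkₐ k I (homogeneousComponent r f),
        ⟨_, homogeneousComponent_mem r f, rfl⟩, ?_⟩
      change Ideal.Quotient.mk I l * Ideal.Quotient.mk I (homogeneousComponent r f) =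
        Ideal.Quotient.mk I p
      rw [← map_mul, Ideal.Quotient.eq]
      have h8 : l * homogeneousComponent r f - p = - homogeneousComponent (r + 1) i := by
        have : p = homogeneousComponent (r + 1) i + homogeneousComponent r f * l := by
          rw [← h7, ← map_add, hpq, h5]
        linear_combination (-1 : MvPolynomial (Fin n) k) * this
      rw [h8]
      exact I.neg_mem h6
    have e2 : Module.finrank k ((LinearMap.ker (π.domRestrict A)).map A.subtype) =
        Module.finrank k (LinearMap.ker (π.domRestrict A)) :=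
      Submodule.finrank_map_subtype_eq _ _
    rw [← e2]
    exact (Submodule.finrank_mono e1).trans (Submodule.finrank_map_le _ _)
  rw [h2] at h1
  omega

theorem dim_zero {n : ℕ} {k : Type*} [Field k] (I : Ideal (MvPolynomial (Fin n) k)) :
    dimQ I 0 ≤ 1 := by
  unfold dimQ
  rw [homogeneousSubmodule_zero, Submodule.one_eq_span, Submodule.map_span, Set.image_singleton]
  have h := finrank_span_finset_le_card (R := k)
    ({(Ideal.Quotient.mkₐ k I).toLinearMap 1} : Finset (MvPolynomial (Fin n) k ⧸ I))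
  rw [Finset.card_singleton, Finset.coe_singleton] at h
  exact h

theorem dstep : StDStep := by
  intro n d j L hj
  refine ⟨fun r => ?_, dim_zero _⟩
  rw [Ij_succ n d j hj L]
  exact dim_step _ (Ij_hom n d j L) _ (lf_hom _) r

end Pool.Agent.W563.KS
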